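import Mathlib
import Pool.Agent.H818R3.KVDelta

/-!
Exact spectral threshold of the pairwise semidefinite relaxation of unique games, with polynomial
lower and upper bounds on the value above it, for constraint graphs of bounded threshold rank.
-/

set_option autoImplicit false

namespace Pool.Agent.Results.MP_325f1f_lc.ThresholdLaw

open Finset Pool.Agent.H562R2

/-- At most `r` singular values of the normalised adjacency matrix of the bipartite multigraph with
edges `(s e, t e)` exceed `1 - lam`, in variational form: there are `k ≤ r` functions on the left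
side, orthonormal for the normalised edge count, such that
`2 ∑ p(s e) q(t e) ≤ (1 - lam) (∑ p(s e)^2 + ∑ q(t e)^2)` for all `p` orthogonal to them and all
`q`. For `k = r = 1` and the constant function this is the spectral gap `lam`. -/
def FewLarge {U V E : Type} [Fintype E] (s : E → U) (t : E → V) (lam : ℝ) (r : ℕ) : Prop :=
  ∃ k : ℕ, k ≤ r ∧ ∃ f : Fin k → U → ℝ,
    (∀ i j, ∑ e, f i (s e) * f j (s e) = if i = j then (Fintype.card E : ℝ) else 0) ∧
    ∀ (p : U → ℝ) (q : V → ℝ), (∀ i, ∑ e, p (s e) * f i (s e) = 0) →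
      2 * ∑ e, p (s e) * q (t e) ≤ (1 - lam) * (∑ e, p (s e) ^ 2 + ∑ e, q (t e) ^ 2)

/-- Solutions of the semidefinite relaxation of the unique game with edges `(s e, t e)` and
constraints `π e`, of value at least `1 - ε`: vectors `x u a` and `y v a` (in a finite-dimensional
space) for the vertices and labels, which for each vertex are pairwise orthogonal and sum to one
common unit vector `z`, with nonnegative inner products, and
`∑_e ∑_a ⟨x (s e) a, y (t e) (π e a)⟩ ≥ (1 - ε) |E|`. -/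
def SdpSolution {U V E A D : Type} [Fintype E] [Fintype A] [Fintype D] (s : E → U) (t : E → V)
    (π : E → Equiv.Perm A) (ε : ℝ) (x : U → A → D → ℝ) (y : V → A → D → ℝ) : Prop :=
  (∃ z : D → ℝ, z ⬝ᵥ z = 1 ∧ (∀ u, ∑ a, x u a = z) ∧ (∀ v, ∑ b, y v b = z)) ∧
  (∀ u a a', a ≠ a' → x u a ⬝ᵥ x u a' = 0) ∧
  (∀ v b b', b ≠ b' → y v b ⬝ᵥ y v b' = 0) ∧
  (∀ u a u' a', 0 ≤ x u a ⬝ᵥ x u' a') ∧
  (∀ u a v b, 0 ≤ x u a ⬝ᵥ y v b) ∧
  (∀ v b v' b', 0 ≤ y v b ⬝ᵥ y v' b') ∧
  (1 - ε) * (Fintype.card E : ℝ) ≤ ∑ e, ∑ a, x (s e) a ⬝ᵥ y (t e) (π e a)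

/-- (1) Above the threshold `2 ε - ε ^ 2` the value of the game is at least `Δ ^ 3 / (12 r)`, where
`Δ` is the distance to the threshold, independently of the alphabet `A` and of the size of the game.
(2) For every `0 < ε < 1` there are games with `r = 1` arbitrarily close above the threshold of value
at most `C Δ ^ c`. (3) For every `0 < ε < 1` there are games at a fixed distance `Δ > 0` above the
threshold, with arbitrarily large `r`, of value at most `C r ^ (-c)`. -/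
theorem result :
    (∀ (U V E A D : Type) [Fintype U] [Fintype V] [Fintype E] [Nonempty E] [Fintype A]
      [DecidableEq A] [Fintype D] (s : E → U) (t : E → V) (π : E → Equiv.Perm A)
      (x : U → A → D → ℝ) (y : V → A → D → ℝ) (lam ε Δ : ℝ) (r : ℕ),
      lam ≤ 1 → 0 ≤ ε → ε ≤ 1 → 1 ≤ r → FewLarge s t lam r → SdpSolution s t π ε x y →
      Δ = lam - (2 * ε - ε ^ 2) → 0 < Δ →
      ∃ (L : U → A) (M : V → A), Δ ^ 3 / (12 * r) * (Fintype.card E : ℝ) ≤
        ((univ.filter fun e => π e (L (s e)) = M (t e)).card : ℝ)) ∧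
    (∀ ε : ℝ, 0 < ε → ε < 1 → ∃ c C : ℝ, 0 < c ∧ 0 < C ∧ ∀ η : ℝ, 0 < η →
      ∃ Δ : ℝ, 0 < Δ ∧ Δ < η ∧
      ∃ (U V E A D : Type) (_ : Fintype U) (_ : Fintype V) (_ : Fintype E) (_ : Nonempty E)
        (_ : Fintype A) (_ : DecidableEq A) (_ : Fintype D) (s : E → U) (t : E → V)
        (π : E → Equiv.Perm A) (x : U → A → D → ℝ) (y : V → A → D → ℝ),
        FewLarge s t (2 * ε - ε ^ 2 + Δ) 1 ∧ SdpSolution s t π ε x y ∧
        ∀ (L : U → A) (M : V → A),
          ((univ.filter fun e => π e (L (s e)) = M (t e)).card : ℝ) ≤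
            C * Δ ^ c * (Fintype.card E : ℝ)) ∧
    (∀ ε : ℝ, 0 < ε → ε < 1 → ∃ Δ c C : ℝ, 0 < Δ ∧ 0 < c ∧ 0 < C ∧ ∀ R : ℕ,
      ∃ r : ℕ, R ≤ r ∧
      ∃ (U V E A D : Type) (_ : Fintype U) (_ : Fintype V) (_ : Fintype E) (_ : Nonempty E)
        (_ : Fintype A) (_ : DecidableEq A) (_ : Fintype D) (s : E → U) (t : E → V)
        (π : E → Equiv.Perm A) (x : U → A → D → ℝ) (y : V → A → D → ℝ),
        FewLarge s t (2 * ε - ε ^ 2 + Δ) r ∧ SdpSolution s t π ε x y ∧
        ∀ (L : U → A) (M : V → A),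
          ((univ.filter fun e => π e (L (s e)) = M (t e)).card : ℝ) ≤
            C * (r : ℝ) ^ (-c) * (Fintype.card E : ℝ)) := by
  refine ⟨?_, ?_, ?_⟩
  · intro U V E A D _ _ _ _ _ _ _ s t π x y lam ε Δ r hlam hε0 hε1 _ hgap hsol hΔdef hΔ
    obtain ⟨⟨z, hz, hzx, hzy⟩, h1, h2, h3, h4, h5, hval⟩ := hsol
    classical
    have hfeas : SdpFeasible x y := ⟨z, hz, hzx, hzy, h1, h2, h3, h4, h5⟩
    have hfib : ∀ e b, (univ.filter fun a => (fun e a => π e a) e a = b).card ≤ 1 := by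
      intro e b
      rw [Finset.card_le_one]
      intro a ha a' ha'
      simp only [Finset.mem_filter, Finset.mem_univ, true_and] at ha ha'
      exact (π e).injective (ha.trans ha'.symm)
    have hth : Real.sqrt ((1 : ℕ) : ℝ) * (1 - lam + Δ) ≤ (1 - ε) ^ 2 := by
      rw [Nat.cast_one, Real.sqrt_one, one_mul, hΔdef]
      apply le_of_eq
      ring
    obtain ⟨k, hkr, hk⟩ := hgap
    exact Pool.Agent.H818R3.Defl.value_few s t (fun e a => π e a) 1 le_rfl hfib lam ε Δ k r hkr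
      hlam hk hfeas hε0 hε1 hΔ hth hval
  · intro ε hε0 hε1
    obtain ⟨c, C, hc, hC, h⟩ := Pool.Agent.H818R3.Defl.delta_needed ε hε0 hε1
    refine ⟨c, C, hc, hC, fun η hη => ?_⟩
    obtain ⟨Δ, hΔ0, hΔη, hle, k, a, B, hB, hgap, hval, hsound⟩ := h η hη
    have hne : Nonempty (KE k B) := by
      have : Nonempty (Fin B) := ⟨⟨0, hB⟩⟩
      infer_instance
    obtain ⟨z, hz, hzx, hzy, h1, h2, h3, h4, h5⟩ := kvec_feasible (k := k)
    exact ⟨Δ, hΔ0, hΔη, Fn k, Fn k, KE k B, Gam k, Gam k × Gam k, inferInstance, inferInstance,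
      inferInstance, hne, inferInstance, inferInstance, inferInstance, ks k B, kt k a B, kp k a B,
      kvec k, kvec k, ⟨1, le_rfl, Pool.Agent.H818R3.Defl.few_of_gap hle hgap⟩,
      ⟨⟨z, hz, hzx, hzy⟩, h1, h2, h3, h4, h5, hval⟩, hsound⟩
  · intro ε hε0 hε1
    obtain ⟨Δ, c, C, hΔ, -, hc, hC, h⟩ := Pool.Agent.H818R3.Defl.rank_needed ε hε0 hε1
    refine ⟨Δ, c, C, hΔ, hc, hC, fun R => ?_⟩
    obtain ⟨k, a, B, r, hRr, hB, hfew, hval, hsound⟩ := h R
    have hne : Nonempty (KE k B) := by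
      have : Nonempty (Fin B) := ⟨⟨0, hB⟩⟩
      infer_instance
    obtain ⟨z, hz, hzx, hzy, h1, h2, h3, h4, h5⟩ := kvec_feasible (k := k)
    exact ⟨r, hRr, Fn k, Fn k, KE k B, Gam k, Gam k × Gam k, inferInstance, inferInstance,
      inferInstance, hne, inferInstance, inferInstance, inferInstance, ks k B, kt k a B, kp k a B,
      kvec k, kvec k, hfew, ⟨⟨z, hz, hzx, hzy⟩, h1, h2, h3, h4, h5, hval⟩, hsound⟩

end Pool.Agent.Results.MP_325f1f_lc.ThresholdLaw
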